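import Mathlib

/-!
# The intermediate logic of `ω^n` is not locally finite for `n ≥ 2`
-/

namespace Pool.Agent.Results.MP_d96af6_lc.NotLocallyFinite

/-- Intuitionistic propositional formulas over the variables `V`. -/
inductive Form (V : Type) : Type
  | var (p : V) : Form V
  | bot : Form V
  | and (φ ψ : Form V) : Form V
  | or (φ ψ : Form V) : Form V
  | imp (φ ψ : Form V) : Form V

/-- Intuitionistic Kripke forcing at a point of an ordered set, for a valuation assigning an
upward-closed set to each variable. -/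
def Forces {V W : Type} [PartialOrder W] (v : V → UpperSet W) : W → Form V → Prop
  | x, .var p => x ∈ v p
  | _, .bot => False
  | x, .and φ ψ => Forces v x φ ∧ Forces v x ψ
  | x, .or φ ψ => Forces v x φ ∨ Forces v x ψ
  | x, .imp φ ψ => ∀ y, x ≤ y → Forces v y φ → Forces v y ψ

/-- The formulas over `V` in the intermediate logic of `ω^n`, the set of `n`-tuples of natural
numbers with the componentwise order. -/
def ILog (n : ℕ) (V : Type) : Set (Form V) :=
  {φ | ∀ (v : V → UpperSet (Fin n → ℕ)) (x : Fin n → ℕ), Forces v x φ}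

/-- Equivalence of formulas modulo `ILog(ω^n)`. -/
def Equivalent (n : ℕ) {V : Type} (φ ψ : Form V) : Prop :=
  (φ.imp ψ).and (ψ.imp φ) ∈ ILog n V

/-- The formulas `φ_{m,a}` and `ψ_{m,a}`. -/
def fp : ℕ → (ℕ → Form (Fin 3)) × (ℕ → Form (Fin 3))
  | 0 => (fun a => .var (Fin.ofNat 3 a),
      fun a => .imp (.var (Fin.ofNat 3 a))
        (.and (.var (Fin.ofNat 3 (a + 1))) (.var (Fin.ofNat 3 (a + 2)))))
  | m + 1 =>
      (fun a => .imp (.or ((fp m).2 a) ((fp m).2 (a + 1))) (.or ((fp m).1 a) ((fp m).1 (a + 1))),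
        fun a => .imp
          (.imp (.or ((fp m).2 a) ((fp m).2 (a + 1))) (.or ((fp m).1 a) ((fp m).1 (a + 1))))
          (.or ((fp m).1 a) ((fp m).1 (a + 1))))

/-- `φ_{m,a}`. -/
def phi (m a : ℕ) : Form (Fin 3) := (fp m).1 a

/-- `ψ_{m,a}`. -/
def psi (m a : ℕ) : Form (Fin 3) := (fp m).2 a

theorem phi_succ (m a : ℕ) : phi (m + 1) a =
    .imp (.or (psi m a) (psi m (a + 1))) (.or (phi m a) (phi m (a + 1))) := rfl

theorem psi_succ (m a : ℕ) : psi (m + 1) a =
    .imp (phi (m + 1) a) (.or (phi m a) (phi m (a + 1))) := rfl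

theorem exists_res (x a : ℕ) : ∃ u, x ≤ u ∧ u ≤ x + 2 ∧ u % 3 = a % 3 :=
  ⟨x + (a % 3 + 3 - x % 3) % 3, by omega, by omega, by omega⟩

section

variable {W : Type} [PartialOrder W] (X Y : W → ℕ) (hX : Monotone X) (hY : Monotone Y)
  (back : ∀ x u w, X x ≤ u → Y x ≤ w → ∃ y, x ≤ y ∧ X y = u ∧ Y y = w)
  (N : ℕ) (v : Fin 3 → UpperSet W)
  (hv : ∀ (a : ℕ) (x : W), x ∈ v (Fin.ofNat 3 a) ↔
    N < X x + Y x ∨ (X x + Y x = N ∧ X x % 3 = a % 3))

include hX hY back hv

theorem key (m : ℕ) : ∀ (a : ℕ) (x : W),
    (Forces v x (phi m a) ↔ N < X x + Y x ∨ (X x + Y x + m = N ∧ X x % 3 = a % 3) ∨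
      (X x + Y x + m = N + 1 ∧ (X x % 3 = a % 3 ∨ X x % 3 = (a + 1) % 3)) ∨
      N + 2 ≤ X x + Y x + m) ∧
    (Forces v x (psi m a) ↔ ∀ u, X x ≤ u → u + m + Y x ≤ N → u % 3 ≠ a % 3) := by
  induction m with
  | zero =>
    intro a x
    have h0 : ∀ a x, Forces v x (phi 0 a) ↔
        N < X x + Y x ∨ (X x + Y x = N ∧ X x % 3 = a % 3) := fun a x => hv a x
    constructor
    · rw [h0]
      omega
    · have h1 : Forces v x (psi 0 a) ↔ ∀ y, x ≤ y → Forces v y (phi 0 a) →
          Forces v y (phi 0 (a + 1)) ∧ Forces v y (phi 0 (a + 2)) := Iff.rfl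
      rw [h1]
      simp only [h0]
      constructor
      · intro h u hu1 hu2 hu3
        obtain ⟨y, hxy, hy1, hy2⟩ := back x u (N - u) hu1 (by omega)
        have := h y hxy (Or.inr ⟨by omega, by omega⟩)
        omega
      · intro h y hxy hy
        have e1 := hX hxy
        have e2 := hY hxy
        rcases hy with hy | ⟨hy1, hy2⟩
        · omega
        · exact absurd hy2 (h (X y) e1 (by omega))
  | succ m ih =>
    have hor : ∀ a x, (Forces v x (phi m a) ∨ Forces v x (phi m (a + 1))) ↔
        (N < X x + Y x ∨ (X x + Y x + m = N ∧ (X x % 3 = a % 3 ∨ X x % 3 = (a + 1) % 3)) ∨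
          N + 1 ≤ X x + Y x + m) := by
      intro a x
      rw [(ih a x).1, (ih (a + 1) x).1]
      omega
    have hphi : ∀ a x, Forces v x (phi (m + 1) a) ↔
        N < X x + Y x ∨ (X x + Y x + (m + 1) = N ∧ X x % 3 = a % 3) ∨
        (X x + Y x + (m + 1) = N + 1 ∧ (X x % 3 = a % 3 ∨ X x % 3 = (a + 1) % 3)) ∨
        N + 2 ≤ X x + Y x + (m + 1) := by
      intro a x
      rw [phi_succ]
      have h1 : Forces v x (.imp (.or (psi m a) (psi m (a + 1))) (.or (phi m a) (phi m (a + 1))))
          ↔ ∀ y, x ≤ y → (Forces v y (psi m a) ∨ Forces v y (psi m (a + 1))) →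
          (Forces v y (phi m a) ∨ Forces v y (phi m (a + 1))) := Iff.rfl
      rw [h1]
      simp only [hor]
      constructor
      · intro h
        by_contra hc
        have hs : X x + Y x + m ≤ N := by omega
        -- a point of level `m` and residue `a + 2` above `x`
        obtain ⟨u, hu1, hu2, hu3⟩ : ∃ u, X x ≤ u ∧ u + m + Y x ≤ N ∧ u % 3 = (a + 2) % 3 := by
          obtain ⟨u, h1, h2, h3⟩ := exists_res (X x) (a + 2)
          by_cases hu : u + m + Y x ≤ N
          · exact ⟨u, h1, hu, h3⟩
          · exfalso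
            omega
        obtain ⟨y, hxy, hy1, hy2⟩ := back x u (N - m - u) hu1 (by omega)
        have h2 := h y hxy (Or.inl (by
          rw [(ih a y).2]
          intro u' h1' h2' h3'
          have : u' = u := by omega
          omega))
        omega
      · intro h y hxy hy
        have e1 := hX hxy
        have e2 := hY hxy
        by_cases hs : X x + Y x + (m + 1) = N ∧ X x % 3 = a % 3
        · by_cases hxy' : X y + Y y = X x + Y x
          · exfalso
            rcases hy with hy | hy
            · rw [(ih a y).2] at hy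
              exact hy (X y) (le_refl _) (by omega) (by
                have : X y = X x := by omega
                omega)
            · rw [(ih (a + 1) y).2] at hy
              exact hy (X y + 1) (by omega) (by omega) (by
                have : X y = X x := by omega
                omega)
          · omega
        · omega
    intro a x
    refine ⟨hphi a x, ?_⟩
    rw [psi_succ]
    have h1 : Forces v x (.imp (phi (m + 1) a) (.or (phi m a) (phi m (a + 1)))) ↔
        ∀ y, x ≤ y → Forces v y (phi (m + 1) a) →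
        (Forces v y (phi m a) ∨ Forces v y (phi m (a + 1))) := Iff.rfl
    rw [h1]
    simp only [hor, hphi]
    constructor
    · intro h u hu1 hu2 hu3
      obtain ⟨y, hxy, hy1, hy2⟩ := back x u (N - (m + 1) - u) hu1 (by omega)
      have := h y hxy (Or.inr (Or.inl ⟨by omega, by omega⟩))
      omega
    · intro h y hxy hy
      have e1 := hX hxy
      have e2 := hY hxy
      by_cases hs : X y + Y y + (m + 1) = N ∧ X y % 3 = a % 3
      · exact absurd hs.2 (h (X y) e1 (by omega))
      · omega

end

/-- **The intermediate logic of `ω^n` is not locally finite for any `n ≥ 2`.** There are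
infinitely many formulas in three variables which are pairwise non-equivalent modulo
`ILog(ω^n)`. -/
theorem result (n : ℕ) (hn : 2 ≤ n) :
    ∃ F : ℕ → Form (Fin 3), ∀ i j, i ≠ j → ¬ Equivalent n (F i) (F j) := by
  classical
  let i₀ : Fin n := ⟨0, by omega⟩
  let i₁ : Fin n := ⟨1, by omega⟩
  have hne : i₁ ≠ i₀ := by
    intro h
    have := congrArg Fin.val h
    simp [i₀, i₁] at this
  let X : (Fin n → ℕ) → ℕ := fun x => x i₀
  let Y : (Fin n → ℕ) → ℕ := fun x => x i₁
  have hX : Monotone X := fun x y h => h i₀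
  have hY : Monotone Y := fun x y h => h i₁
  have back : ∀ x u w, X x ≤ u → Y x ≤ w → ∃ y, x ≤ y ∧ X y = u ∧ Y y = w := by
    intro x u w hu hw
    refine ⟨Function.update (Function.update x i₀ u) i₁ w, ?_, ?_, ?_⟩
    · intro i
      by_cases h1 : i = i₁
      · subst h1
        simpa using hw
      · rw [Function.update_of_ne h1]
        by_cases h0 : i = i₀
        · subst h0
          simpa using hu
        · rw [Function.update_of_ne h0]
    · simp only [X]
      rw [Function.update_of_ne hne.symm, Function.update_self]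
    · simp only [Y]
      rw [Function.update_self]
  let v : ℕ → Fin 3 → UpperSet (Fin n → ℕ) := fun N a =>
    ⟨{x | N < X x + Y x ∨ (X x + Y x = N ∧ X x % 3 = a.val)}, by
      intro x y hxy hx
      have e1 := hX hxy
      have e2 := hY hxy
      simp only [Set.mem_ofPred_eq] at hx ⊢
      rcases hx with hx | hx
      · left
        omega
      · by_cases h : X y = X x ∧ Y y = Y x
        · right
          omega
        · left
          omega⟩
  have hv : ∀ N (a : ℕ) (x : Fin n → ℕ), x ∈ v N (Fin.ofNat 3 a) ↔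
      N < X x + Y x ∨ (X x + Y x = N ∧ X x % 3 = a % 3) := fun N a x => Iff.rfl
  have lt : ∀ i j, i < j → ¬ Forces (v i) 0 (psi i 0) ∧ Forces (v i) 0 (psi j 0) := by
    intro i j hij
    constructor
    · rw [(key X Y hX hY back i (v i) (hv i) i 0 0).2]
      intro h
      exact h 0 (by simp [X]) (by simp [Y]) rfl
    · rw [(key X Y hX hY back i (v i) (hv i) j 0 0).2]
      intro u _ h
      omega
  refine ⟨fun m => psi m 0, fun i j hij h => ?_⟩
  rcases Nat.lt_or_gt_of_ne hij with hlt | hlt
  · obtain ⟨h1, h2⟩ := lt i j hlt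
    exact h1 ((h (v i) 0).2 0 (le_refl _) h2)
  · obtain ⟨h1, h2⟩ := lt j i hlt
    exact h1 ((h (v j) 0).1 0 (le_refl _) h2)

end Pool.Agent.Results.MP_d96af6_lc.NotLocallyFinite
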